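import Mathlib
import Pool.Agent.Q24.ChainDefs
import Pool.Agent.Q24.ChainMain
import Pool.Agent.Q24.ProPPres

/-!
# The chain of Demushkin groups is not 1-cyclotomic

For every prime `p` and every `d ≥ 3` the pro-`p` group on `x_1, y_1, …, x_d, y_d` with the
relations `[x_i, y_i] = [x_{i+1}, y_{i+1}]` is not `1`-cyclotomic.
-/

set_option autoImplicit false

namespace Pool.Agent.Results.MP_cf27b7_al.NotCyclotomic

open Q24.Chain Q24.ProPPres

/-- the relators -/
def relators (d : ℕ) : Set (FreeGroup (Fin d ⊕ Fin d)) :=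
  {w | ∃ (i : ℕ) (h : i + 1 < d), w =
    (FreeGroup.of (Sum.inl ⟨i, Nat.lt_of_succ_lt h⟩) * FreeGroup.of (Sum.inr ⟨i, Nat.lt_of_succ_lt h⟩)
      * (FreeGroup.of (Sum.inl ⟨i, Nat.lt_of_succ_lt h⟩))⁻¹
      * (FreeGroup.of (Sum.inr ⟨i, Nat.lt_of_succ_lt h⟩))⁻¹) *
    (FreeGroup.of (Sum.inl ⟨i + 1, h⟩) * FreeGroup.of (Sum.inr ⟨i + 1, h⟩)
      * (FreeGroup.of (Sum.inl ⟨i + 1, h⟩))⁻¹ * (FreeGroup.of (Sum.inr ⟨i + 1, h⟩))⁻¹)⁻¹}

theorem rel_iff {d : ℕ} {P : Type} [Group P] (f : FreeGroup (Fin d ⊕ Fin d) →* P) :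
    Rel d (fun i => f (FreeGroup.of (Sum.inl i))) (fun i => f (FreeGroup.of (Sum.inr i))) ↔
      ∀ w ∈ relators d, f w = 1 := by
  constructor
  · rintro h w ⟨i, hi, rfl⟩
    simp only [map_mul, map_inv]
    rw [h i hi, mul_inv_cancel]
  · intro h i hi
    have := h _ ⟨i, hi, rfl⟩
    simp only [map_mul, map_inv] at this
    exact mul_inv_eq_one.mp this

theorem exists_presented (p d : ℕ) [Fact p.Prime] :
    ∃ (G : Type) (_ : Group G) (_ : TopologicalSpace G) (x y : Fin d → G),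
      IsPresented p d G x y := by
  refine ⟨Grp p (relators d), inferInstance, inferInstance,
    fun i => can' p (relators d) (FreeGroup.of (Sum.inl i)),
    fun i => can' p (relators d) (FreeGroup.of (Sum.inr i)), isProP_Grp p (relators d),
    (rel_iff (can' p (relators d))).mpr fun w hw => can'_rel p (relators d) hw, ?_⟩
  intro P _ _ hP a b hab
  have := hP.t2
  obtain ⟨φ, hφ, hφw⟩ := exists_hom' p (relators d) hP (Sum.elim a b) (by
    rw [← rel_iff]
    simpa using hab)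
  refine ⟨φ, ⟨hφ, fun i => by rw [hφw]; simp, fun i => by rw [hφw]; simp⟩, ?_⟩
  rintro ψ ⟨hψ, h1, h2⟩
  refine hom_unique p (relators d) hψ hφ ?_
  rintro (i | i)
  · rw [h1, hφw]; simp
  · rw [h2, hφw]; simp

/-- For every prime `p` and every `d ≥ 3`, the pro-`p` group `G` presented by generators
`x_1, y_1, …, x_d, y_d` and the relations `[x_i, y_i] = [x_{i+1}, y_{i+1}]` (which exists) is not
`1`-cyclotomic: no orientation `θ : G → ℤ_pˣ` makes `(G, θ)` a `1`-cyclotomic pair. -/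
theorem result (p : ℕ) [Fact p.Prime] (d : ℕ) (hd : 3 ≤ d) :
    (∃ (G : Type) (_ : Group G) (_ : TopologicalSpace G) (x y : Fin d → G),
      IsPresented p d G x y) ∧
    ∀ (G : Type) [Group G] [TopologicalSpace G] (x y : Fin d → G),
      IsPresented p d G x y → ¬ IsOneCyclotomic p G :=
  ⟨exists_presented p d, fun _ _ _ _ _ hG => not_cyclotomic hd hG⟩

end Pool.Agent.Results.MP_cf27b7_al.NotCyclotomic
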